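import Mathlib
import Pool.Agent.R580.LevyFinal

set_option autoImplicit false

/-!
# Colourings onto `ω₁` that are surjective on closed copies of `ω₁`, for all cardinals at once

`κ` is weakly inaccessible in the ground model. In an extension in which `κ` is `ω₁` there is, for
every ordinal `K`, a colouring of the pairs from `K` with `ω₁` colours such that every closed set
of order type `ω₁` has pairs of every colour. In fact there is a function from `K` to `ω₁` which
takes every value on every closed set of order type `ω₁`.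
-/

universe u

namespace Pool.Agent.Results.MP_dbd8eb_lc.AllCardinals

open Cardinal Pool.Agent.Helper669.Forcing Pool.Agent.R580.CCDefs

theorem result :
    (∀ κ : Cardinal.{u}, ℵ₀ < κ → κ.IsRegular → (∀ μ < κ, Order.succ μ < κ) →
      ∃ (P : Type u) (_ : Preorder P), Nonempty P ∧ ∀ p : P,
        p ∈ IsOmegaOne P κ.ord.ToType ∧
        ∀ (K : Type u) [LinearOrder K] [WellFoundedLT K],
          p ∈ Surjective P κ.ord.ToType K ∧ p ∈ PointSurjective P κ.ord.ToType K) ∧
    ∃ κ : Cardinal.{u + 1}, ℵ₀ < κ ∧ κ.IsRegular ∧ ∀ μ < κ, Order.succ μ < κ := by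
  refine ⟨fun κ h0 hκ hlim => ⟨Pool.Agent.R580.LevyCollapse.Levy κ, inferInstance,
    ⟨⟨fun _ _ => none, by simp, by simp⟩⟩, fun p =>
    ⟨Pool.Agent.R580.LevyCollapse.isOmegaOne hκ h0 p, fun K _ _ =>
      ⟨Pool.Agent.R580.LevyFinal.surjective hκ h0 hlim p,
        Pool.Agent.R580.LevyFinal.points hκ h0 hlim p⟩⟩⟩, ?_⟩
  have h : IsInaccessible Cardinal.univ.{u, u + 1} := IsInaccessible.univ
  exact ⟨_, h.aleph0_lt, h.isRegular, fun μ hμ => h.isSuccLimit.succ_lt hμ⟩

end Pool.Agent.Results.MP_dbd8eb_lc.AllCardinals
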