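import Mathlib
import Pool.Agent.R580.ClosedColour

set_option autoImplicit false

/-!
# Colourings onto `ω₁` that are surjective on closed copies of `ω₁`, added by countable conditions

No large cardinal is used and `ω₁` is preserved; if the continuum hypothesis holds in the ground
model then all cardinals are preserved. The extension has colourings as required for all cardinals
up to a given one.
-/

universe u

namespace Pool.Agent.Results.MP_dbd8eb_lc.CountableConditions

open Cardinal Pool.Agent.Helper669.Forcing Pool.Agent.R580.CCDefs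

theorem result (κ : Cardinal.{u}) :
    ∃ (P : Type u) (_ : Preorder P), Nonempty P ∧ ∀ p : P,
      p ∈ IsOmegaOne P (ℵ₁ : Cardinal.{u}).ord.ToType ∧
      ((2 : Cardinal.{u}) ^ (ℵ₀ : Cardinal.{u}) = ℵ₁ → p ∈ CardinalsPreserved.{u, u} P) ∧
      ∀ (K : Type u) [LinearOrder K] [WellFoundedLT K], #K ≤ κ →
        p ∈ Surjective P (ℵ₁ : Cardinal.{u}).ord.ToType K := by
  classical
  refine ⟨Pool.Agent.W905.SM.AddForcing ℵ₁ (κ.out × κ.out), inferInstance,
    ⟨⟨fun _ _ => none, ?_⟩⟩, fun p => ⟨Pool.Agent.R580.ClosedColour.isOmegaOne p, fun hch =>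
      Pool.Agent.W905.SM.cardinalsPreserved Pool.Agent.R580.ClosedColour.reg1 ?_ p,
      fun K _ _ hK => ?_⟩⟩
  · rw [Pool.Agent.R580.ClosedColour.cnt]
    simp
  · intro μ hμ
    rw [Cardinal.lt_aleph_one_iff] at hμ
    rw [← hch]
    exact Cardinal.power_le_power_left two_ne_zero hμ
  · rw [← Cardinal.mk_out κ] at hK
    obtain ⟨f⟩ := hK
    exact Pool.Agent.R580.ClosedColour.surjective (i := Prod.map f f)
      (f.injective.prodMap f.injective) p

end Pool.Agent.Results.MP_dbd8eb_lc.CountableConditions
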